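import Pool.Agent.Helper89_AT3.BES
import Pool.Agent.AT3.Stmts1

/-! # Squad AT3, row BES: `BesStmt` -/

namespace Pool.Agent.PP.T3.H89

theorem bes : BesStmt := by
  intro ι κ _ _ v c hc h s
  exact bes0 ι κ v c hc h s

end Pool.Agent.PP.T3.H89
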