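import Pool.Agent.AT3.Stmts1

/-!
# Squad AT3, row CYC: half a transversal for a permutation of prime power order
-/

set_option autoImplicit false

namespace Pool.Agent.PP.T3.H89

open Pool.Agent.PP.T3

section

variable {X : Type} (σ : Equiv.Perm X)

theorem dvd_of_fix (ℓ : ℕ) (hℓ : ℓ.Prime) (n : ℕ) (hσ : σ ^ ℓ ^ n = 1) (y : X) (hy : σ y ≠ y)
    (m : ℕ) (h : (σ ^ m) y = y) : ℓ ∣ m := by
  have h1 : Function.minimalPeriod σ y ∣ m := by
    refine Function.IsPeriodicPt.minimalPeriod_dvd ?_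
    show (σ : X → X)^[m] y = y
    rw [Equiv.Perm.iterate_eq_pow]
    exact h
  have h2 : Function.minimalPeriod σ y ∣ ℓ ^ n := by
    refine Function.IsPeriodicPt.minimalPeriod_dvd ?_
    show (σ : X → X)^[ℓ ^ n] y = y
    rw [Equiv.Perm.iterate_eq_pow, hσ]
    rfl
  obtain ⟨j, -, hj⟩ := (Nat.dvd_prime_pow hℓ).1 h2
  have h3 : j ≠ 0 := by
    rintro rfl
    rw [pow_zero] at hj
    exact hy (Function.minimalPeriod_eq_one_iff_isFixedPt.1 hj)
  rw [hj] at h1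
  exact (dvd_pow_self ℓ h3).trans h1

theorem mod_of_eq (ℓ : ℕ) (hℓ : ℓ.Prime) (n : ℕ) (hσ : σ ^ ℓ ^ n = 1) (y : X) (hy : σ y ≠ y)
    (a b : ℕ) (h : (σ ^ a) y = (σ ^ b) y) (ha : ℓ ∣ a) : ℓ ∣ b := by
  rcases le_total a b with hab | hab
  · obtain ⟨d, rfl⟩ := Nat.exists_eq_add_of_le hab
    rw [pow_add, Equiv.Perm.mul_apply] at h
    have h1 := (σ ^ a).injective h
    exact dvd_add ha (dvd_of_fix σ ℓ hℓ n hσ y hy d h1.symm)
  · obtain ⟨d, rfl⟩ := Nat.exists_eq_add_of_le hab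
    rw [pow_add, Equiv.Perm.mul_apply] at h
    have h1 := (σ ^ b).injective h
    exact (Nat.dvd_add_left (dvd_of_fix σ ℓ hℓ n hσ y hy d h1)).1 ha

end

/-- CYC -/
theorem cyc : CycStmt := by
  classical
  intro ℓ hℓ X _ σ n hσ
  have hp : ℓ.Prime := hℓ.out
  let r : X → X := fun x => (Quotient.mk (Equiv.Perm.SameCycle.setoid σ) x).out
  have hr1 : ∀ x, Equiv.Perm.SameCycle σ (r x) x := fun x => Quotient.mk_out
    (s := Equiv.Perm.SameCycle.setoid σ) x
  have hr2 : ∀ x (i : ℕ), r ((σ ^ i) x) = r x := by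
    intro x i
    have h1 : Quotient.mk (Equiv.Perm.SameCycle.setoid σ) ((σ ^ i) x) =
        Quotient.mk (Equiv.Perm.SameCycle.setoid σ) x :=
      Quotient.sound (s := Equiv.Perm.SameCycle.setoid σ)
        (show Equiv.Perm.SameCycle σ ((σ ^ i) x) x from
          ⟨-(i : ℤ), by rw [← Equiv.Perm.mul_apply, ← zpow_natCast, ← zpow_add]; simp⟩)
    exact congrArg Quotient.out h1
  have hfo : IsOfFinOrder σ := isOfFinOrder_iff_pow_eq_one.2 ⟨ℓ ^ n, pow_pos hp.pos n, hσ⟩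
  have hr3 : ∀ x, ∃ k : ℕ, (σ ^ k) (r x) = x := by
    intro x
    obtain ⟨z, hz⟩ := hr1 x
    have h1 : σ ^ z ∈ Submonoid.powers σ := by
      rw [hfo.mem_powers_iff_mem_zpowers]
      exact ⟨z, rfl⟩
    obtain ⟨k, hk⟩ := h1
    refine ⟨k, ?_⟩
    have hk' : σ ^ k = σ ^ z := hk
    rw [hk']
    exact hz
  have hfix : ∀ x (i : ℕ), σ ((σ ^ i) x) = (σ ^ i) x ↔ σ x = x := by
    intro x i
    have h1 : σ ((σ ^ i) x) = (σ ^ i) (σ x) := by
      rw [← Equiv.Perm.mul_apply, ← Equiv.Perm.mul_apply, ← pow_succ', ← pow_succ]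
    rw [h1]
    exact (σ ^ i).injective.eq_iff
  let c : X → ℕ := fun x => if σ x ≠ x ∧ ∃ k : ℕ, ℓ ∣ k ∧ (σ ^ k) (r x) = x then 1 else 0
  -- the values of `c`
  have hc : ∀ x (k : ℕ), (σ ^ k) (r x) = x → σ x ≠ x → ∀ i : ℕ,
      c ((σ ^ i) x) = if ℓ ∣ i + k then 1 else 0 := by
    intro x k hk hx i
    have hrx : σ (r x) ≠ r x := by
      intro h
      apply hx
      have h2 := (hfix (r x) k).2 h
      rw [hk] at h2
      exact h2
    have e1 : (σ ^ (i + k)) (r x) = (σ ^ i) x := by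
      rw [pow_add, Equiv.Perm.mul_apply, hk]
    show (if σ ((σ ^ i) x) ≠ (σ ^ i) x ∧ ∃ k' : ℕ, ℓ ∣ k' ∧
      (σ ^ k') (r ((σ ^ i) x)) = (σ ^ i) x then 1 else 0) = _
    rw [hr2 x i]
    by_cases hd : ℓ ∣ i + k
    · rw [if_pos hd, if_pos]
      exact ⟨fun h => hx ((hfix x i).1 h), i + k, hd, e1⟩
    · rw [if_neg hd, if_neg]
      rintro ⟨-, k', hk', h'⟩
      rw [← e1] at h'
      exact hd (mod_of_eq σ ℓ hp n hσ (r x) hrx k' (i + k) h' hk')
  refine ⟨c, fun x => ?_, fun x => ?_, fun x hx => ?_⟩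
  · show (if _ then 1 else 0) = 0 ∨ (if _ then 1 else 0) = 1
    split_ifs
    · exact Or.inr rfl
    · exact Or.inl rfl
  · by_cases hx : σ x = x
    · have h1 : σ ((σ ^ ℓ) x) = (σ ^ ℓ) x := (hfix x ℓ).2 hx
      show (if _ then 1 else 0) = (if _ then 1 else 0)
      rw [if_neg (fun h => h.1 h1), if_neg (fun h => h.1 hx)]
    · obtain ⟨k, hk⟩ := hr3 x
      have h1 := hc x k hk hx ℓ
      have h2 := hc x k hk hx 0
      rw [pow_zero, Equiv.Perm.one_apply, zero_add] at h2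
      rw [h1, h2]
      have h3 : (ℓ ∣ ℓ + k) ↔ (ℓ ∣ k) := Nat.dvd_add_right (dvd_refl ℓ)
      by_cases h4 : ℓ ∣ k
      · rw [if_pos h4, if_pos (h3.2 h4)]
      · rw [if_neg h4, if_neg (fun h => h4 (h3.1 h))]
  · obtain ⟨k, hk⟩ := hr3 x
    rw [Finset.sum_congr rfl (fun i _ => hc x k hk hx i)]
    have hpos : 0 < ℓ := hp.pos
    rw [Finset.sum_eq_single ((ℓ - k % ℓ) % ℓ)]
    · rw [if_pos]
      have h1 : k % ℓ < ℓ := Nat.mod_lt _ hpos
      rw [Nat.dvd_iff_mod_eq_zero, Nat.mod_add_mod]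
      have h2 : ℓ - k % ℓ + k = ℓ + ℓ * (k / ℓ) := by
        have := Nat.mod_add_div k ℓ
        omega
      rw [h2]
      simp
    · intro b hb hne
      rw [if_neg]
      intro hd
      apply hne
      have hb' := Finset.mem_range.1 hb
      have h1 : k % ℓ < ℓ := Nat.mod_lt _ hpos
      have h3 : (b + k % ℓ) % ℓ = 0 := by
        rw [Nat.add_mod_mod]
        exact Nat.mod_eq_zero_of_dvd hd
      have h4 : b + k % ℓ < 2 * ℓ := by omega
      obtain ⟨q, hq⟩ := Nat.dvd_of_mod_eq_zero h3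
      have h5 : q < 2 := by
        by_contra hcon
        have : 2 ≤ q := by omega
        have := Nat.mul_le_mul_left ℓ this
        omega
      interval_cases q
      · have : b = 0 ∧ k % ℓ = 0 := by omega
        rw [this.1, this.2]
        simp
      · have h6 : b = ℓ - k % ℓ := by omega
        rw [← h6, Nat.mod_eq_of_lt hb']
    · intro h
      exact absurd (Finset.mem_range.2 (Nat.mod_lt _ hpos)) h

end Pool.Agent.PP.T3.H89
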