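import Mathlib

/-!
# Squad AT3, row BES: Bessel's inequality in the form of the Schur test
-/

set_option autoImplicit false

namespace Pool.Agent.PP.T3.H89

/-- BES with `0 ≤ c` -/
theorem bes0 (ι κ : Type) [Fintype ι] [Fintype κ] (v : ι → κ → ℂ) (c : ℝ) (hc : 0 ≤ c)
    (h : ∀ i, ∑ i', ‖∑ k, v i k * starRingEnd ℂ (v i' k)‖ ≤ c) (s : κ → ℂ) :
    ∑ i, Complex.normSq (∑ k, s k * v i k) ≤ c * ∑ k, Complex.normSq (s k) := by
  classical
  set x : ι → ℂ := fun i => starRingEnd ℂ (∑ k, s k * v i k) with hx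
  set T : κ → ℂ := fun k => ∑ i, x i * v i k with hT
  set A : ℝ := ∑ i, ‖x i‖ ^ 2 with hA
  set S : ℝ := ∑ k, ‖s k‖ ^ 2 with hS
  have hAeq : ∑ i, Complex.normSq (∑ k, s k * v i k) = A := by
    rw [hA]
    refine Finset.sum_congr rfl (fun i _ => ?_)
    rw [hx]
    simp only [Complex.normSq_eq_norm_sq, RCLike.norm_conj]
  have hSeq : ∑ k, Complex.normSq (s k) = S := by
    rw [hS]
    exact Finset.sum_congr rfl (fun k _ => Complex.normSq_eq_norm_sq _)
  rw [hAeq, hSeq]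
  have hA0 : 0 ≤ A := Finset.sum_nonneg (fun i _ => sq_nonneg _)
  have hS0 : 0 ≤ S := Finset.sum_nonneg (fun i _ => sq_nonneg _)
  -- A as a sum over k
  have hAc : (A : ℂ) = ∑ k, s k * T k := by
    have h1 : (A : ℂ) = ∑ i, x i * (∑ k, s k * v i k) := by
      rw [hA]
      push_cast
      refine Finset.sum_congr rfl (fun i _ => ?_)
      rw [← Complex.mul_conj', hx]
      simp only [Complex.conj_conj]
    rw [h1]
    simp only [Finset.mul_sum]
    rw [Finset.sum_comm]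
    refine Finset.sum_congr rfl (fun k _ => ?_)
    rw [hT, Finset.mul_sum]
    refine Finset.sum_congr rfl (fun i _ => ?_)
    ring
  have hA1 : A ≤ ∑ k, ‖s k‖ * ‖T k‖ := by
    have h1 : A = ‖(A : ℂ)‖ := by
      rw [Complex.norm_real, Real.norm_of_nonneg hA0]
    rw [h1, hAc]
    refine (norm_sum_le _ _).trans ?_
    exact le_of_eq (Finset.sum_congr rfl (fun k _ => norm_mul _ _))
  have hA2 : A ^ 2 ≤ S * ∑ k, ‖T k‖ ^ 2 := by
    refine (pow_le_pow_left₀ hA0 hA1 2).trans ?_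
    exact Finset.sum_mul_sq_le_sq_mul_sq Finset.univ (fun k => ‖s k‖) (fun k => ‖T k‖)
  -- the sum of |T k|^2
  have hT1 : ((∑ k, ‖T k‖ ^ 2 : ℝ) : ℂ) = ∑ i, ∑ i', x i * starRingEnd ℂ (x i') *
      ∑ k, v i k * starRingEnd ℂ (v i' k) := by
    push_cast
    have h1 : ∀ k, ((‖T k‖ : ℝ) : ℂ) ^ 2 = ∑ i, ∑ i', (x i * starRingEnd ℂ (x i')) *
        (v i k * starRingEnd ℂ (v i' k)) := by
      intro k
      rw [← Complex.mul_conj', hT]
      simp only [map_sum, map_mul]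
      rw [Finset.sum_mul_sum]
      refine Finset.sum_congr rfl (fun i _ => Finset.sum_congr rfl (fun i' _ => ?_))
      ring
    rw [Finset.sum_congr rfl (fun k _ => h1 k), Finset.sum_comm]
    refine Finset.sum_congr rfl (fun i _ => ?_)
    rw [Finset.sum_comm]
    refine Finset.sum_congr rfl (fun i' _ => ?_)
    rw [Finset.mul_sum]
  have hsym : ∀ i i', ‖∑ k, v i k * starRingEnd ℂ (v i' k)‖ =
      ‖∑ k, v i' k * starRingEnd ℂ (v i k)‖ := by
    intro i i'
    rw [← RCLike.norm_conj, map_sum]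
    congr 1
    refine Finset.sum_congr rfl (fun k _ => ?_)
    rw [map_mul, Complex.conj_conj]
    ring
  have hT2 : ∑ k, ‖T k‖ ^ 2 ≤ c * A := by
    have h0 : 0 ≤ ∑ k, ‖T k‖ ^ 2 := Finset.sum_nonneg (fun i _ => sq_nonneg _)
    have h1 : ∑ k, ‖T k‖ ^ 2 = ‖((∑ k, ‖T k‖ ^ 2 : ℝ) : ℂ)‖ := by
      rw [Complex.norm_real, Real.norm_of_nonneg h0]
    rw [h1, hT1]
    calc ‖∑ i, ∑ i', x i * starRingEnd ℂ (x i') * ∑ k, v i k * starRingEnd ℂ (v i' k)‖
        ≤ ∑ i, ∑ i', ‖x i‖ * ‖x i'‖ * ‖∑ k, v i k * starRingEnd ℂ (v i' k)‖ := by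
          refine (norm_sum_le _ _).trans (Finset.sum_le_sum (fun i _ => ?_))
          refine (norm_sum_le _ _).trans (Finset.sum_le_sum (fun i' _ => ?_))
          rw [norm_mul, norm_mul, RCLike.norm_conj (x i')]
      _ ≤ ∑ i, ∑ i', (‖x i‖ ^ 2 * (‖∑ k, v i k * starRingEnd ℂ (v i' k)‖ / 2) +
            ‖x i'‖ ^ 2 * (‖∑ k, v i k * starRingEnd ℂ (v i' k)‖ / 2)) := by
          refine Finset.sum_le_sum (fun i _ => Finset.sum_le_sum (fun i' _ => ?_))
          have hg : 0 ≤ ‖∑ k, v i k * starRingEnd ℂ (v i' k)‖ := norm_nonneg _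
          nlinarith [mul_nonneg (sq_nonneg (‖x i‖ - ‖x i'‖)) hg]
      _ = ∑ i, ‖x i‖ ^ 2 * ((∑ i', ‖∑ k, v i k * starRingEnd ℂ (v i' k)‖) / 2) +
            ∑ i', ‖x i'‖ ^ 2 * ((∑ i, ‖∑ k, v i k * starRingEnd ℂ (v i' k)‖) / 2) := by
          simp only [Finset.sum_add_distrib]
          congr 1
          · refine Finset.sum_congr rfl (fun i _ => ?_)
            rw [← Finset.mul_sum, Finset.sum_div]
          · rw [Finset.sum_comm]
            refine Finset.sum_congr rfl (fun i' _ => ?_)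
            rw [← Finset.mul_sum, Finset.sum_div]
      _ ≤ ∑ i, ‖x i‖ ^ 2 * (c / 2) + ∑ i', ‖x i'‖ ^ 2 * (c / 2) := by
          refine add_le_add (Finset.sum_le_sum (fun i _ => ?_)) (Finset.sum_le_sum (fun i' _ => ?_))
          · exact mul_le_mul_of_nonneg_left (by linarith [h i]) (sq_nonneg _)
          · refine mul_le_mul_of_nonneg_left ?_ (sq_nonneg _)
            have h2 := h i'
            rw [Finset.sum_congr rfl (fun i _ => hsym i' i)] at h2
            linarith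
      _ = c * A := by
          rw [← Finset.sum_mul]
          ring
  rcases hA0.eq_or_lt with h0 | h0
  · rw [← h0]
    exact mul_nonneg hc hS0
  · have h3 : A * A ≤ (c * S) * A := by
      calc A * A = A ^ 2 := (sq A).symm
        _ ≤ S * ∑ k, ‖T k‖ ^ 2 := hA2
        _ ≤ S * (c * A) := mul_le_mul_of_nonneg_left hT2 hS0
        _ = (c * S) * A := by ring
    exact le_of_mul_le_mul_right h3 h0

/-- BES for nonempty families -/
theorem bes1 (ι κ : Type) [Fintype ι] [Nonempty ι] [Fintype κ] (v : ι → κ → ℂ) (c : ℝ)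
    (h : ∀ i, ∑ i', ‖∑ k, v i k * starRingEnd ℂ (v i' k)‖ ≤ c) (s : κ → ℂ) :
    ∑ i, Complex.normSq (∑ k, s k * v i k) ≤ c * ∑ k, Complex.normSq (s k) := by
  refine bes0 ι κ v c ?_ h s
  obtain ⟨i⟩ := (inferInstance : Nonempty ι)
  exact (Finset.sum_nonneg (fun i' _ => norm_nonneg _)).trans (h i)

end Pool.Agent.PP.T3.H89
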